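import Pool.Agent.Helper14.FO.Defs

/-! MP_190084_co: independent sets of `K_{p/q} × R`. -/

set_option autoImplicit false

namespace Pool.Agent.Helper49.FO

open Finset Pool.Agent.Helper14.FO

/-- numerical core -/
theorem cct_num (p q e g : ℕ) (c : ℕ → ℕ) (hp : p = q + q + e) (hq : 0 < q)
    (hanti : ∀ s t, s ≤ t → c t ≤ c s)
    (h : ∀ t, t < q → q * c (q - t) + p * c (q + t + 1) ≤ q * g + q * c (q + t + 1)) :
    ∑ t ∈ range p, c (t + 1) ≤ q * g := by
  subst hp
  have e1 : ∑ t ∈ range (q + q + e), c (t + 1) = ∑ t ∈ range q, c (t + 1) +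
      ∑ t ∈ range q, c (q + t + 1) + ∑ t ∈ range e, c (q + q + t + 1) := by
    rw [Finset.sum_range_add, Finset.sum_range_add]
  have e2 : ∑ t ∈ range q, c (q - t) = ∑ t ∈ range q, c (t + 1) := by
    rw [← Finset.sum_range_reflect]
    apply Finset.sum_congr rfl
    intro t ht
    rw [mem_range] at ht
    congr 1
    omega
  have h1 : ∑ t ∈ range q, (q * c (q - t) + (q + q + e) * c (q + t + 1)) ≤
      ∑ t ∈ range q, (q * g + q * c (q + t + 1)) :=
    Finset.sum_le_sum fun t ht => h t (mem_range.mp ht)
  rw [Finset.sum_add_distrib, Finset.sum_add_distrib, ← Finset.mul_sum, ← Finset.mul_sum, e2,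
    Finset.sum_const, card_range, smul_eq_mul, ← Finset.mul_sum] at h1
  have h2 : ∑ t ∈ range e, c (q + q + t + 1) ≤ e * c (q + q) := by
    have := Finset.sum_le_card_nsmul (range e) (fun t => c (q + q + t + 1)) (c (q + q))
      (fun t _ => hanti _ _ (by omega))
    rwa [card_range, smul_eq_mul] at this
  have h3 : q * c (q + q) ≤ ∑ t ∈ range q, c (q + t + 1) := by
    have := Finset.card_nsmul_le_sum (range q) (fun t => c (q + t + 1)) (c (q + q))
      (fun t ht => hanti _ _ (by have := mem_range.mp ht; omega))
    rwa [card_range, smul_eq_mul] at this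
  rw [e1]
  generalize ∑ t ∈ range q, c (t + 1) = A at *
  generalize ∑ t ∈ range q, c (q + t + 1) = B at *
  generalize ∑ t ∈ range e, c (q + q + t + 1) = C at *
  generalize c (q + q) = d at *
  have h4 : q * C ≤ e * B := by
    calc q * C ≤ q * (e * d) := Nat.mul_le_mul_left _ h2
      _ = e * (q * d) := by ring
      _ ≤ e * B := Nat.mul_le_mul_left _ h3
  have h5 : q * (A + B + C) ≤ q * (q * g) := by nlinarith
  exact Nat.le_of_mul_le_mul_left h5 hq

theorem st_CCT (h1 : ST_KNB) (h2 : ST_EXP) : ST_CCT := by
  intro p q _ hq h2q G _ _ _ R hR hI S hS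
  obtain ⟨e, he⟩ : ∃ e, p = q + q + e := ⟨p - 2 * q, by omega⟩
  let F : G → Finset (ZMod p) := fun r => univ.filter (fun i => (i, r) ∈ S)
  let c : ℕ → ℕ := fun t => (univ.filter (fun r : G => t ≤ (F r).card)).card
  have hFp : ∀ r, (F r).card ≤ p := fun r => by
    have := card_le_univ (F r)
    rwa [ZMod.card] at this
  have hadj : ∀ r r', R.Adj r r' → (F r).card ≠ 0 → (F r').card ≠ 0 →
      (F r).card + (F r').card ≤ 2 * q := by
    intro r r' hrr hr hr'
    apply h1 p q hq h2q (F r) (F r') (card_ne_zero.mp hr) (card_ne_zero.mp hr')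
    intro a ha b hb hab
    exact hS (a, r) (mem_filter.mp ha).2 (b, r') (mem_filter.mp hb).2 ⟨hab, hrr⟩
  have hcard : S.card = ∑ r, (F r).card := by
    have h3 : S.card = ∑ r, (S.filter (fun x => x.2 = r)).card :=
      card_eq_sum_card_fiberwise (fun x _ => mem_univ x.2)
    rw [h3]
    apply Finset.sum_congr rfl
    intro r _
    have k1 : ∀ x ∈ S.filter (fun x => x.2 = r), x.1 ∈ F r := by
      intro x hx
      rw [mem_filter] at hx
      apply mem_filter.mpr
      refine ⟨mem_univ _, ?_⟩
      rw [← hx.2]
      exact hx.1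
    have k2 : ∀ i ∈ F r, (i, r) ∈ S.filter (fun x => x.2 = r) := by
      intro i hi
      rw [mem_filter]
      exact ⟨(mem_filter.mp hi).2, rfl⟩
    refine Finset.card_bij' (fun x _ => x.1) (fun i _ => (i, r)) k1 k2 ?_ ?_
    · intro x hx
      rw [mem_filter] at hx
      exact Prod.ext rfl hx.2.symm
    · intro i _
      rfl
  have hlayer : ∀ r, (F r).card = ∑ t ∈ range p, (if t + 1 ≤ (F r).card then 1 else 0) := by
    intro r
    rw [← Finset.card_filter]
    have h3 : (range p).filter (fun t => t + 1 ≤ (F r).card) = range (F r).card := by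
      ext t
      rw [mem_filter, mem_range, mem_range]
      have := hFp r
      omega
    rw [h3, card_range]
  have hsum : S.card = ∑ t ∈ range p, c (t + 1) := by
    rw [hcard, Finset.sum_congr rfl (fun r _ => hlayer r), Finset.sum_comm]
    apply Finset.sum_congr rfl
    intro t _
    exact (Finset.card_filter _ _).symm
  rw [hsum]
  apply cct_num p q e (Fintype.card G) c he hq
  · intro s t hst
    apply card_le_card
    intro r hr
    rw [mem_filter] at hr ⊢
    exact ⟨hr.1, hst.trans hr.2⟩
  · intro t ht
    set L : Finset G := univ.filter (fun r : G => q + t + 1 ≤ (F r).card) with hL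
    set L' : Finset G := univ.filter (fun r : G => q - t ≤ (F r).card) with hL'
    classical
    set N : Finset G := univ.filter (fun b => ∃ a ∈ L, R.Adj a b) with hN
    have hLi : Ind R L := by
      intro a ha b hb hab
      rw [hL, mem_filter] at ha hb
      have := hadj a b hab (by omega) (by omega)
      omega
    have h4 := h2 G R hR p q hI L hLi N (fun b => by
      rw [hN, mem_filter]
      exact ⟨fun h => h.2, fun h => ⟨mem_univ _, h⟩⟩)
    have hdis : Disjoint L' N := by
      rw [Finset.disjoint_left]
      intro b hb hbN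
      rw [hL', mem_filter] at hb
      rw [hN, mem_filter] at hbN
      obtain ⟨-, a, ha, hab⟩ := hbN
      rw [hL, mem_filter] at ha
      have := hadj a b hab (by omega) (by omega)
      omega
    have h5 : L'.card + N.card ≤ Fintype.card G := by
      rw [← card_union_of_disjoint hdis]
      exact card_le_univ _
    have h6 : c (q - t) = L'.card := rfl
    have h7 : c (q + t + 1) = L.card := rfl
    rw [h6, h7]
    nlinarith

end Pool.Agent.Helper49.FO
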